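import Pool.Agent.R870.RZ.TransMain

/-!
# MP_c95b3b_ag: Zilber's conjecture for 100 % of the translates of an arbitrary subvariety of a torus
by the points of an arbitrary grid, in the range of small complexity

Let `V` be an arbitrary irreducible subvariety of the torus `(ℂ^×)^n`, of dimension `d`. There is a
constant `C`, depending only on `V`, such that for every finite set `B` of nonzero complex numbers
(for instance `{1, …, N}`, the numbers `2, 4, …, 2 ^ N`, or the `N`-th roots of unity) and every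
`Δ ≥ 1`, for all `|B| ^ n` points `g ∈ B ^ n` of the grid with at most
`C Δ ^ (n ^ 2 + d + 1) |B| ^ (n - 1)` exceptions:

* the translate `Y = g V` has no point on an algebraic subgroup `H` of complexity at most `Δ` with
  `dim Y + dim H ≤ n - 1`: this part of the set `U(Y)` of the problem is empty;
* all intersections of `Y` with algebraic subgroups of complexity at most `Δ` are typical: the
  irreducible subsets of `Y ∩ H` have dimension at most `dim Y + dim H - n`.

The same holds for the cosets `η H` of the subgroups of complexity at most `Δ` through the points of an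
arbitrary finite set `G` (torsion points, points of a finitely generated group), with at most
`C |G| Δ ^ (n ^ 2 + d + 1) |B| ^ (n - 1)` exceptions. So 100 % of the translates have these
properties for complexities up to `|B| ^ θ`, `θ < 1 / (n ^ 2 + d + 1)`.
-/

set_option autoImplicit false

namespace Pool.Agent.Results.MP_c95b3b_ag.GridTranslates

open Pool.Agent.R870.RZ

/-- The points of `Y`, `dim Y = d`, on the algebraic subgroups `H = {y | y ^ a = 1 for all a in M}` of
dimension `n - rank M` with `d + dim H ≤ n - 1`, such that `M` has complexity at most `Δ`. The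
set `U(Y)` of the problem is the union of these sets for all `Δ`. -/
def U {n : ℕ} (Δ d : ℕ) (Y : Set (Fin n → ℂ)) : Set (Fin n → ℂ) :=
  {y | y ∈ Y ∧ ∃ M : Submodule ℤ (Fin n → ℤ), Complexity Δ M ∧ d < Module.finrank ℤ M ∧
    ∀ a ∈ M, ∏ l, y l ^ a l = 1}

/-- All intersections of `Y`, `dim Y = d`, with the coset `η H = {y | y ^ a = η ^ a, a ∈ M}` are
typical. -/
def TypicalOn {n : ℕ} (d : ℕ) (Y : Set (Fin n → ℂ)) (M : Submodule ℤ (Fin n → ℤ))
    (η : Fin n → ℂ) : Prop :=
  ∀ W : Set (Fin n → ℂ), W ⊆ Y → W ⊆ coset M η → (idealOf W).IsPrime →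
    dim W + (Module.finrank ℤ M : Cardinal) ≤ (d : Cardinal)

theorem U_empty {n : ℕ} (Δ d : ℕ) (Y : Set (Fin n → ℂ)) (hY : ∀ y ∈ Y, ∀ l, y l ≠ 0)
    (h : ∀ M : Submodule ℤ (Fin n → ℤ), Complexity Δ M → TypicalOn d Y M fun _ => 1) :
    U Δ d Y = ∅ := by
  rw [Set.eq_empty_iff_forall_notMem]
  rintro y ⟨hyY, M, hMΔ, hdim, hM⟩
  have hprime : (idealOf ({y} : Set (Fin n → ℂ))).IsPrime := by
    have h1 : idealOf ({y} : Set (Fin n → ℂ)) =
        RingHom.ker (MvPolynomial.eval y : MvPolynomial (Fin n) ℂ →+* ℂ) := by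
      ext f
      rw [mem_idealOf, RingHom.mem_ker]
      simp
    rw [h1]
    exact RingHom.ker_isPrime _
  have h1 := h M hMΔ {y} (Set.singleton_subset_iff.2 hyY)
    (Set.singleton_subset_iff.2 ⟨hY y hyY, fun a ha => by rw [hM a ha]; simp⟩) hprime
  have h3 : (Module.finrank ℤ M : Cardinal) ≤ (d : Cardinal) := le_trans le_add_self h1
  have h4 : Module.finrank ℤ M ≤ d := by exact_mod_cast h3
  omega

/-- Let `V` be an irreducible subvariety of the torus `(ℂ^×)^n`, of dimension `d`. There is a `C` such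
that for all `Δ ≥ 1` and all finite nonempty sets `B` of nonzero complex numbers:

(1) for all `g ∈ B ^ n` with at most `C Δ ^ (n ^ 2 + d + 1) |B| ^ (n - 1)` exceptions the
translate `Y = g V` has no point on an algebraic subgroup `H` of complexity at most `Δ` with
`dim Y + dim H ≤ n - 1`, and all its intersections with algebraic subgroups of complexity at most
`Δ` are typical;

(2) for every finite set `G` of points and all `g ∈ B ^ n` with at most
`C |G| Δ ^ (n ^ 2 + d + 1) |B| ^ (n - 1)` exceptions all intersections of `Y = g V` with the cosets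
`η H`, `η ∈ G`, `H` of complexity at most `Δ`, are typical. -/
theorem result {n : ℕ} (V : Set (Fin n → ℂ)) (hV0 : ∀ y ∈ V, ∀ l, y l ≠ 0)
    (hVp : (idealOf V).IsPrime) (d : ℕ) (hd : dim V = d) :
    ∃ C : ℕ, ∀ Δ : ℕ, 1 ≤ Δ → ∀ B : Finset ℂ, 1 ≤ B.card → 0 ∉ B →
      (∃ E : Finset (Fin n → ℂ),
        E.card * B.card ≤ C * Δ ^ (n ^ 2 + d + 1) * B.card ^ n ∧
        ∀ g : Fin n → ℂ, (∀ l, g l ∈ B) → g ∉ E →
          U Δ d (Pool.Agent.R870.RZ.translate g V) = ∅ ∧
          ∀ M : Submodule ℤ (Fin n → ℤ), Complexity Δ M →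
            TypicalOn d (Pool.Agent.R870.RZ.translate g V) M fun _ => 1) ∧
      ∀ G : Finset (Fin n → ℂ), ∃ E : Finset (Fin n → ℂ),
        E.card * B.card ≤ C * G.card * Δ ^ (n ^ 2 + d + 1) * B.card ^ n ∧
        ∀ g : Fin n → ℂ, (∀ l, g l ∈ B) → g ∉ E →
          ∀ M : Submodule ℤ (Fin n → ℤ), Complexity Δ M → ∀ η ∈ G,
            TypicalOn d (Pool.Agent.R870.RZ.translate g V) M η := by
  obtain ⟨C, hC⟩ := mainT V hV0 hVp d hd.le
  refine ⟨C, fun Δ hΔ B hB1 hB0 => ⟨?_, fun G => hC Δ hΔ B hB1 hB0 G⟩⟩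
  obtain ⟨E, hE, hE'⟩ := hC Δ hΔ B hB1 hB0 {fun _ => 1}
  rw [Finset.card_singleton, mul_one] at hE
  refine ⟨E, hE, fun g hg hgE => ?_⟩
  have h1 : ∀ M : Submodule ℤ (Fin n → ℤ), Complexity Δ M →
      TypicalOn d (Pool.Agent.R870.RZ.translate g V) M fun _ => 1 := fun M hM =>
    hE' g hg hgE M hM _ (Finset.mem_singleton_self _)
  refine ⟨U_empty Δ d _ ?_ h1, h1⟩
  rintro y ⟨x, hx, hyx⟩ l
  rw [hyx l]
  exact mul_ne_zero (fun h => hB0 (h ▸ hg l)) (hV0 x hx l)

end Pool.Agent.Results.MP_c95b3b_ag.GridTranslates
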