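import Pool.Agent.R424.MP.Torus

/-!
# MP_c95b3b_ag: Zilber's conjecture for almost all members of families of subvarieties of tori with
several integral parameters

**Families.** Let `F` be a finite system of polynomials in the coordinates `x ∈ (ℂˣ)^k` of the torus
and `N` auxiliary coordinates `y ∈ ℂ^N`, with the exponents `supp q` and the coefficients `c q β`, which
are polynomials in `1 + s` variables `t = (t_0; t_1, …, t_s)` with integral coefficients. For
`t ∈ ℤ^(1+s)` let `X_t` be the set of the points `x` of the torus for which there is a `y ∈ ℂ^N` such that
all polynomials of the system, with the coefficients evaluated at `t`, vanish at `(x, y)` (`solT`). So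
`(X_t)` can be any family of subvarieties, or of images of varieties, which depends algebraically on
`1 + s` parameters.

**Tropicalizations at hypersurfaces.** Let `h_1, …, h_M` be polynomials in `t` of positive degree in
`t_0`. Suppose that each coefficient `c` has a well-defined order `e_l(c)` along `h_l`, namely
`c = h_l ^ e_l(c) · g`, where `g` has no common factor of positive degree in `t_0` with `h_l`
(`HasOrd`, `CoprimeTo`; for irreducible `h_l` this is true for each `c ≠ 0`). The tropicalization along
`h_l` is the set of the points `w` of `(ℚ ∪ {∞})^(k+N)` such that for every polynomial of the system the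
minimum of the numbers `e_l (coefficient) + β · w` is attained at two different exponents or is
infinite (`TropAt`).

**The condition** (`GenericT`). Let `m` be an integer, the dimension of the `X_t`. For every linear
subspace `L` of `ℚ^k` of dimension less than `k - m` there is an `l` such that no point of the
tropicalization along `h_l` has its torus coordinates in `L`.

**Theorem.** Suppose that the condition is satisfied. Let `Γ` be a finite set of algebraic numbers,
`K ⊇ Γ` a countable field and `ε > 0`. Then for all `B ≥ 1` the member `X_t` has no atypical intersection
with the cosets `ξ H`, `H` an algebraic subgroup of the torus and `ξ` a point whose coordinates are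
units integral over `ℤ[Γ]` (for instance `ξ = 1` or any point whose coordinates are algebraic units), for
all but at most `C · B ^ (s + ε)` of the about `(2 B)^(1 + s)` integral parameters `t` with all
`|t_i| ≤ B`. This means: every irreducible closed subset of `X_t ∩ ξ H` has dimension at most
`m + dim H - k`, and every point of it has at most this transcendence degree over `K`
(`NoAtypicalT`). In particular `X_t` does not meet any algebraic subgroup of dimension less than
`k - m`: the set `𝒰(Y)` of the problem is empty for every irreducible component `Y` of `X_t` of dimension
`m`; and no component of dimension `m` lies in a proper algebraic subgroup.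

The exponent `s` is the correct one for such families: in general the conclusion is false for all `t` on
a hypersurface, hence for about `B^s` parameters.

The theorems of the starting files `TropicallyGenericFamilies`, `FinitelyGeneratedFields`,
`RadicalMembers` (of this problem) and of `MP_b7926e_nt` (`FewExceptionalParameters`, `EllipticBase`) are
about one-parameter families, or parameters on a curve, and tropicalizations at points; here the base is
the affine space of any dimension, the degenerations are along arbitrary hypersurfaces, and the
exceptional parameters are bounded by `B^(s + ε)`, a saving of the factor `B^(1 - ε)`.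

The proof: for all but `O(B^(s+ε))` parameters there is for every `l` a prime number `p`, larger than a
bound which depends only on the family, which divides `h_l(t)`, but does not divide `R(t)` for a nonzero
multiple `R` of the resultants of `h_l` and of the `g`, hence no `g(t)`: for fixed `t_1, …, t_s` with
`R ≠ 0`, the numbers `h_l(t)` all of whose large prime factors divide `R(t_1, …, t_s)` are up to small
factors products of powers of few prime numbers. At places of `ℂ` above `p` all coefficients have the
values `e_l(c) · v(h_l(t))`, with the same unit `v(h_l(t)) > 0`, which need not be `v(p)`. So the values of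
the coordinates of a point of `X_t` are a multiple of a point of the tropicalization along `h_l`, while
those of a point of a coset lie in the linear subspace `L` of the subgroup.
-/

set_option autoImplicit false

namespace Pool.Agent.Results.MP_c95b3b_ag.ManyParameters

open Pool.Agent.R424.MP

/-- **Zilber's conjecture for almost all members of families with several integral parameters**, from
the tropicalizations of the family along finitely many hypersurfaces of the space of parameters. -/
theorem result (κ : Type) [Finite κ] (s k N m M : ℕ)
    (supp : κ → Finset ((Fin k ⊕ Fin N) →₀ ℕ))
    (c : κ → ((Fin k ⊕ Fin N) →₀ ℕ) → Polynomial (MvPolynomial (Fin s) ℤ))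
    (h : Fin M → Polynomial (MvPolynomial (Fin s) ℤ)) (hdeg : ∀ l, 0 < (h l).natDegree)
    (e : Fin M → κ → ((Fin k ⊕ Fin N) →₀ ℕ) → ℕ)
    (he : ∀ l q, ∀ β ∈ supp q, HasOrd (h l) (c q β) (e l q β)) (hgen : GenericT m supp e)
    (K : Subfield ℂ) [Countable K] (Γ : Finset ℂ) (hΓ : ∀ γ ∈ Γ, IsAlgebraic ℚ γ)
    (hΓK : ∀ γ ∈ Γ, γ ∈ K) (ε : ℝ) (hε : 0 < ε) :
    ∃ C : ℝ, ∀ B : ℕ, 1 ≤ B →
      ({z : ℤ × (Fin s → ℤ) | |z.1| ≤ B ∧ (∀ i, |z.2 i| ≤ B) ∧
        ¬ NoAtypicalT (algebraMap (Algebra.adjoin ℤ (Γ : Set ℂ)) ℂ) K m
          (solT supp (fun q β => ((ev z.1 z.2 (c q β) : ℤ) : ℂ)))}.ncard : ℝ) ≤
            C * (B : ℝ) ^ ((s : ℝ) + ε) :=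
  manyTorus K supp c h hdeg e he hgen Γ hΓ hΓK ε hε

end Pool.Agent.Results.MP_c95b3b_ag.ManyParameters
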