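import Pool.Agent.R728.RC.Each
import Pool.Agent.Results.MP_c95b3b_ag.GridTranslates

/-!
# Zilber's conjecture for all integral translates in random residue classes

Let `V` be an irreducible subvariety of the torus `(ℂ^×)^n`, `n ≥ 1`, of dimension `d`. Let `𝓜` be
a set of moduli with `∑ m ^ (-s) < ∞` and let `X m` be random elements of any sets `Y m`, each
value of which has probability at most `K m ^ (-θ)`; no independence is assumed. Let `φ m` be any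
maps from the integral vectors to `Y m`, for instance the reduction modulo `m` (`θ = n`). Let
`ρ, κ ≥ 0` and `ρ (n - 1) + κ (n ^ 2 + d + 1) ≤ θ - s`. Almost surely, for all but finitely many
`m` in `𝓜`, for ALL integral vectors `z` with nonzero components, `|z| ≤ m ^ ρ` and `φ m z = X m`,
the translate `z V` has no point on an algebraic subgroup `H` of complexity at most `m ^ κ` with
`dim V + dim H ≤ n - 1`, and only typical intersections with the algebraic subgroups of complexity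
at most `m ^ κ`. For the reduction modulo squareful numbers or modulo the powers of a number,
`ρ > 1` is allowed.
-/

set_option autoImplicit false

namespace Pool.Agent.Results.MP_c95b3b_ag.RandomResidues

open MeasureTheory Pool.Agent.R870.RZ

/-- The points of `Y`, `dim Y = d`, on the algebraic subgroups `H = {y | y ^ a = 1 for all a in M}` of
dimension `n - rank M` with `d + dim H ≤ n - 1`, such that `M` has complexity at most `Δ`. The
set `U(Y)` of the problem is the union of these sets for all `Δ`. -/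
def U {n : ℕ} (Δ d : ℕ) (Y : Set (Fin n → ℂ)) : Set (Fin n → ℂ) :=
  {y | y ∈ Y ∧ ∃ M : Submodule ℤ (Fin n → ℤ), Complexity Δ M ∧ d < Module.finrank ℤ M ∧
    ∀ a ∈ M, ∏ l, y l ^ a l = 1}

/-- All intersections of `Y`, `dim Y = d`, with the algebraic subgroups
`H = {y | y ^ a = 1, a ∈ M}` of complexity at most `Δ` are typical: the irreducible subsets of
`Y ∩ H` have dimension at most `d + dim H - n = d - rank M`. -/
def TypicalUpTo {n : ℕ} (Δ d : ℕ) (Y : Set (Fin n → ℂ)) : Prop :=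
  ∀ M : Submodule ℤ (Fin n → ℤ), Complexity Δ M → ∀ W : Set (Fin n → ℂ), W ⊆ Y →
    W ⊆ coset M (fun _ => 1) → (idealOf W).IsPrime →
    dim W + (Module.finrank ℤ M : Cardinal) ≤ (d : Cardinal)

/-- the translate of `V` by an integral vector -/
def tr {n : ℕ} (z : Fin n → ℤ) (V : Set (Fin n → ℂ)) : Set (Fin n → ℂ) :=
  {y | ∃ x ∈ V, ∀ l, y l = (z l : ℂ) * x l}

/-- the nonzero integers of absolute value at most `H`, as complex numbers -/
noncomputable def grid (H : ℕ) : Finset ℂ :=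
  ((Finset.Icc (-(H : ℤ)) H).erase 0).map ⟨fun z : ℤ => (z : ℂ), Int.cast_injective⟩

lemma card_grid (H : ℕ) : (grid H).card = 2 * H := by
  unfold grid
  rw [Finset.card_map, Finset.card_erase_of_mem (by rw [Finset.mem_Icc]; omega), Int.card_Icc]
  omega

lemma mem_grid {H : ℕ} {z : ℤ} (h0 : z ≠ 0) (h : |z| ≤ (H : ℤ)) : (z : ℂ) ∈ grid H := by
  unfold grid
  rw [Finset.mem_map]
  refine ⟨z, ?_, rfl⟩
  rw [Finset.mem_erase, Finset.mem_Icc]
  exact ⟨h0, abs_le.1 h⟩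

lemma zero_notMem_grid (H : ℕ) : (0 : ℂ) ∉ grid H := by
  unfold grid
  rw [Finset.mem_map]
  rintro ⟨z, hz, hz0⟩
  rw [Finset.mem_erase] at hz
  apply hz.1
  have : ((z : ℤ) : ℂ) = 0 := hz0
  exact_mod_cast this

lemma tr_eq {n : ℕ} (z : Fin n → ℤ) (V : Set (Fin n → ℂ)) :
    tr z V = Pool.Agent.R870.RZ.translate (fun l => (z l : ℂ)) V := rfl

/-- **Theorem.** Let `V` be an irreducible subvariety of the torus `(ℂ^×)^n`, `n ≥ 1`, of dimension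
`d`. Let `𝓜` be a set of positive integers with a convergent sum of the `m ^ (-s)`, let `X m` be
random elements of arbitrary sets `Y m`, each value of which has probability at most
`K m ^ (-θ)` (no independence is assumed), and let `φ m` be any maps from the integral vectors to
`Y m`; let `ρ, κ ≥ 0` and `ρ (n - 1) + κ (n ^ 2 + d + 1) ≤ θ - s`. Almost surely, for all but
finitely many `m` in `𝓜`, for ALL integral vectors `z` with nonzero components, `|z l| ≤ m ^ ρ`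
and `φ m z = X m`, the translate `z V` has no point on an algebraic subgroup `H` of complexity at
most `m ^ κ` with `dim V + dim H ≤ n - 1`, and all its intersections with the algebraic subgroups
of complexity at most `m ^ κ` are typical. -/
theorem result {n : ℕ} (hn : 1 ≤ n) (V : Set (Fin n → ℂ)) (hV0 : ∀ y ∈ V, ∀ l, y l ≠ 0)
    (hVp : (idealOf V).IsPrime) (d : ℕ) (hd : dim V = d)
    (𝓜 : Set ℕ) (s θ K ρ κ : ℝ) (Ω : Type) [MeasurableSpace Ω]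
    (P : Measure Ω) (Y : ℕ → Type) (X : ∀ m : ℕ, Ω → Y m) (φ : ∀ m : ℕ, (Fin n → ℤ) → Y m)
    (h0 : ∀ m ∈ 𝓜, 0 < m) (hsum : Summable fun m : 𝓜 => ((m : ℕ) : ℝ) ^ (-s))
    (hX : ∀ m ∈ 𝓜, ∀ y : Y m, P {ω | X m ω = y} ≤ ENNReal.ofReal (K * (m : ℝ) ^ (-θ)))
    (hρ : 0 ≤ ρ) (hκ : 0 ≤ κ)
    (h : ρ * ((n : ℝ) - 1) + κ * ((n : ℝ) ^ 2 + d + 1) ≤ θ - s) :
    ∀ᵐ ω ∂P, ∃ m₀ : ℕ, ∀ m ∈ 𝓜, m₀ ≤ m → ∀ z : Fin n → ℤ,
      (∀ l, z l ≠ 0 ∧ |(z l : ℝ)| ≤ (m : ℝ) ^ ρ) → φ m z = X m ω →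
      U ⌊(m : ℝ) ^ κ⌋₊ d (tr z V) = ∅ ∧ TypicalUpTo ⌊(m : ℝ) ^ κ⌋₊ d (tr z V) := by
  classical
  obtain ⟨C, hC⟩ := GridTranslates.result V hV0 hVp d hd
  obtain ⟨N, rfl⟩ : ∃ N, n = N + 1 := ⟨n - 1, by omega⟩
  have hmain := Pool.Agent.R728.RC.eventually_each (𝓜 := 𝓜) (s := s) (θ := θ) (A := K)
    (D := C * 2 ^ N) (X := X) (φ := φ) (P := P)
    (F := fun m => {z : Fin (N + 1) → ℤ | (∀ l, z l ≠ 0 ∧ |(z l : ℝ)| ≤ (m : ℝ) ^ ρ) ∧
      ¬ (U ⌊(m : ℝ) ^ κ⌋₊ d (tr z V) = ∅ ∧ TypicalUpTo ⌊(m : ℝ) ^ κ⌋₊ d (tr z V))})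
    h0 hsum hX (by
      intro m hm
      have hm1 : (1 : ℝ) ≤ (m : ℝ) := by exact_mod_cast h0 m hm
      have hm0 : (0 : ℝ) < (m : ℝ) := by linarith
      have hκ1 : (1 : ℝ) ≤ (m : ℝ) ^ κ := Real.one_le_rpow hm1 hκ
      have hρ1 : (1 : ℝ) ≤ (m : ℝ) ^ ρ := Real.one_le_rpow hm1 hρ
      have hΔ : 1 ≤ ⌊(m : ℝ) ^ κ⌋₊ := Nat.le_floor (by exact_mod_cast hκ1)
      have hH : 1 ≤ ⌊(m : ℝ) ^ ρ⌋₊ := Nat.le_floor (by exact_mod_cast hρ1)
      have hcard := card_grid ⌊(m : ℝ) ^ ρ⌋₊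
      obtain ⟨⟨E, hE1, hE2⟩, -⟩ := hC ⌊(m : ℝ) ^ κ⌋₊ hΔ (grid ⌊(m : ℝ) ^ ρ⌋₊)
        (by rw [hcard]; omega) (zero_notMem_grid _)
      rw [hcard] at hE1
      have hinj : Set.InjOn (fun (z : Fin (N + 1) → ℤ) (l : Fin (N + 1)) => ((z l : ℤ) : ℂ))
          {z : Fin (N + 1) → ℤ | (∀ l, z l ≠ 0 ∧ |(z l : ℝ)| ≤ (m : ℝ) ^ ρ) ∧
          ¬ (U ⌊(m : ℝ) ^ κ⌋₊ d (tr z V) = ∅ ∧
            TypicalUpTo ⌊(m : ℝ) ^ κ⌋₊ d (tr z V))} := by
        intro z _ z' _ hzz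
        funext l
        have h3 : ((z l : ℤ) : ℂ) = ((z' l : ℤ) : ℂ) := congrFun hzz l
        exact_mod_cast h3
      have hsub : (fun (z : Fin (N + 1) → ℤ) (l : Fin (N + 1)) => ((z l : ℤ) : ℂ)) ''
          {z : Fin (N + 1) → ℤ | (∀ l, z l ≠ 0 ∧ |(z l : ℝ)| ≤ (m : ℝ) ^ ρ) ∧
          ¬ (U ⌊(m : ℝ) ^ κ⌋₊ d (tr z V) = ∅ ∧
            TypicalUpTo ⌊(m : ℝ) ^ κ⌋₊ d (tr z V))} ⊆ (E : Set (Fin (N + 1) → ℂ)) := by
        rintro _ ⟨z, ⟨h1, h2⟩, rfl⟩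
        by_contra hcE
        apply h2
        have h3 : ∀ l, ((z l : ℤ) : ℂ) ∈ grid ⌊(m : ℝ) ^ ρ⌋₊ := by
          intro l
          apply mem_grid (h1 l).1
          have h4 : (((z l).natAbs : ℕ) : ℝ) ≤ (m : ℝ) ^ ρ := by
            rw [Nat.cast_natAbs]
            exact_mod_cast (h1 l).2
          rw [Int.abs_eq_natAbs]
          exact_mod_cast Nat.le_floor h4
        obtain ⟨h5, h6⟩ := hE2 _ h3 hcE
        exact ⟨h5, fun M hM W h7 h8 h9 => h6 M hM W h7 h8 h9⟩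
      refine ⟨Set.Finite.of_finite_image (E.finite_toSet.subset hsub) hinj, ?_⟩
      rw [← hinj.ncard_image]
      have h1 := Set.ncard_le_ncard hsub E.finite_toSet
      rw [Set.ncard_coe_finset] at h1
      have h2 : E.card ≤ C * ⌊(m : ℝ) ^ κ⌋₊ ^ ((N + 1) ^ 2 + d + 1) *
          (2 * ⌊(m : ℝ) ^ ρ⌋₊) ^ N := by
        have h3 : E.card * (2 * ⌊(m : ℝ) ^ ρ⌋₊) ≤
            (C * ⌊(m : ℝ) ^ κ⌋₊ ^ ((N + 1) ^ 2 + d + 1) * (2 * ⌊(m : ℝ) ^ ρ⌋₊) ^ N) *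
              (2 * ⌊(m : ℝ) ^ ρ⌋₊) := by
          refine hE1.trans (le_of_eq ?_)
          rw [pow_succ]
          ring
        exact Nat.le_of_mul_le_mul_right h3 (by positivity)
      have h4 := Nat.floor_le (by linarith : (0 : ℝ) ≤ (m : ℝ) ^ κ)
      have h5 := Nat.floor_le (by linarith : (0 : ℝ) ≤ (m : ℝ) ^ ρ)
      calc (((fun (z : Fin (N + 1) → ℤ) (l : Fin (N + 1)) => ((z l : ℤ) : ℂ)) ''
            {z : Fin (N + 1) → ℤ | (∀ l, z l ≠ 0 ∧ |(z l : ℝ)| ≤ (m : ℝ) ^ ρ) ∧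
            ¬ (U ⌊(m : ℝ) ^ κ⌋₊ d (tr z V) = ∅ ∧
              TypicalUpTo ⌊(m : ℝ) ^ κ⌋₊ d (tr z V))}).ncard : ℝ)
          ≤ ((C * ⌊(m : ℝ) ^ κ⌋₊ ^ ((N + 1) ^ 2 + d + 1) *
              (2 * ⌊(m : ℝ) ^ ρ⌋₊) ^ N : ℕ) : ℝ) := by
            exact_mod_cast h1.trans h2
        _ = C * (⌊(m : ℝ) ^ κ⌋₊ : ℝ) ^ ((N + 1) ^ 2 + d + 1) *
              (2 * (⌊(m : ℝ) ^ ρ⌋₊ : ℝ)) ^ N := by
            push_cast
            ring
        _ ≤ C * ((m : ℝ) ^ κ) ^ ((N + 1) ^ 2 + d + 1) * (2 * (m : ℝ) ^ ρ) ^ N := by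
            gcongr
        _ = C * 2 ^ N * (m : ℝ) ^ (ρ * N + κ * (((N : ℝ) + 1) ^ 2 + d + 1)) := by
            rw [mul_pow, ← Real.rpow_natCast ((m : ℝ) ^ κ), ← Real.rpow_natCast ((m : ℝ) ^ ρ),
              ← Real.rpow_mul hm0.le, ← Real.rpow_mul hm0.le, Real.rpow_add hm0]
            push_cast
            ring
        _ ≤ C * 2 ^ N * (m : ℝ) ^ (θ - s) := by
            apply mul_le_mul_of_nonneg_left _ (by positivity)
            apply Real.rpow_le_rpow_of_exponent_le hm1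
            push_cast at h
            linarith)
  filter_upwards [hmain] with ω hω
  obtain ⟨m₀, hm₀⟩ := hω
  refine ⟨m₀, fun m hm hmm z h1 h2 => ?_⟩
  by_contra hcon
  exact hm₀ m hm hmm z ⟨h1, hcon⟩ h2

end Pool.Agent.Results.MP_c95b3b_ag.RandomResidues
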