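import Pool.Agent.Results.MP_c95b3b_ag.GridTranslates
import Pool.Agent.R482.ST.Vec

/-!
# All translates near the vectors of a sequence have no unlikely intersections of bounded complexity

Let `f_k`, `k = 0, 1, 2, …`, be positive functions on `(a₀, ∞)`, `a₀ ≥ 0`, such that `f_k(t) / t` is nondecreasing, and such
that the sequence `f_k(t)` has exponent of convergence at most `τ` for each `t > a₀`: for instance `f_k(t) = v_k t`
(dilatations; `τ` the exponent of convergence of `v_k > 0`), `f_k(t) = t ^ (v_k)` for exponents `v_k ≥ 1` (`τ = 0`), or the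
orbits `f_k(t) = g (g (⋯ g (t)))` of any map `g` with `g(t) > t` and `g(t) / t` nondecreasing (`τ = 0`).
Let `V` be an irreducible subvariety of dimension `d` of the torus `(ℂ^×)^n`, `n ≥ 1`, `κ > 0` and `θ < 1`. For all vectors `u`
in `ℝ^n` (maximum norm), `‖u‖ > a₀`, outside a set of Hausdorff dimension at most `(n - 1 + κ (n² + d + 1) + τ) / (1 - θ)` and
all constants, for all but finitely many `k`: for ALL integral vectors `z` with nonzero components near `(r / ‖u‖) u`,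
`r = f_k(‖u‖)`, the translate `z V` has no points on algebraic subgroups `H` of complexity at most `r ^ κ` with
`d + dim H ≤ n - 1`, and its intersections with all algebraic subgroups of complexity at most `r ^ κ`, and with their
cosets by the points of a given countable set (such as the set of all algebraic points), are typical.
-/

set_option autoImplicit false

namespace Pool.Agent.Results.MP_c95b3b_ag.StarshapedTranslates

open GridTranslates (U TypicalOn)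
open Pool.Agent.R870.RZ (Complexity idealOf dim translate)

/-- the functions `f n` are positive on `(a, ∞)`, `a ≥ 0`, and `f n x / x` is nondecreasing there -/
def Starshaped (a : ℝ) (f : ℕ → ℝ → ℝ) : Prop :=
  0 ≤ a ∧ ∀ n : ℕ, ∀ x y : ℝ, a < x → x ≤ y → 0 < f n x ∧ f n x / x ≤ f n y / y

/-- for each `x > a` the exponent of convergence of the sequence `f n x` is at most `τ` -/
def ExpLe (a : ℝ) (f : ℕ → ℝ → ℝ) (τ : ℝ) : Prop :=
  ∀ x : ℝ, a < x → ∀ t : ℝ, τ < t → Summable (fun n : ℕ => (f n x) ^ (-t))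

/-- the components of `z` differ by at most `ρ` from those of `(g ‖u‖ / ‖u‖) u` -/
def Near {n : ℕ} (g : ℝ → ℝ) (ρ : ℝ) (u : Fin n → ℝ) (z : Fin n → ℤ) : Prop :=
  ∀ i, |(z i : ℝ) - g ‖u‖ / ‖u‖ * u i| ≤ ρ

/-- the translate of `V` by the vector `z` -/
def tr {n : ℕ} (z : Fin n → ℤ) (V : Set (Fin n → ℂ)) : Set (Fin n → ℂ) := {y | ∃ x ∈ V, ∀ i, y i = (z i : ℂ) * x i}

lemma compl_mono {n : ℕ} {Δ Δ' : ℕ} (h : Δ ≤ Δ') {M : Submodule ℤ (Fin n → ℤ)} (hM : Complexity Δ M) :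
    Complexity Δ' M := by
  obtain ⟨v, h1, h2, h3⟩ := hM
  exact ⟨v, h1, h2, fun i l => (h3 i l).trans (by exact_mod_cast h)⟩

lemma U_mono {n : ℕ} {Δ Δ' : ℕ} (h : Δ ≤ Δ') (d : ℕ) (Y : Set (Fin n → ℂ)) : U Δ d Y ⊆ U Δ' d Y := by
  rintro y ⟨h1, M, h2, h3⟩
  exact ⟨h1, M, compl_mono h h2, h3⟩

/-- the nonzero integers of absolute value at most `H` -/
noncomputable def grid (H : ℕ) : Finset ℂ := ((Finset.Icc (-(H : ℤ)) H).erase 0).image (fun b : ℤ => (b : ℂ))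

lemma card_grid (H : ℕ) : (grid H).card = 2 * H := by
  rw [grid, Finset.card_image_of_injective _ Int.cast_injective, Finset.card_erase_of_mem (by
    rw [Finset.mem_Icc]
    omega), Int.card_Icc]
  omega

lemma zero_grid (H : ℕ) : (0 : ℂ) ∉ grid H := by
  rw [grid, Finset.mem_image]
  rintro ⟨b, hb, hb0⟩
  rw [Finset.mem_erase] at hb
  exact hb.1 (by exact_mod_cast hb0)

lemma mem_grid {H : ℕ} {b : ℤ} (hb : b ≠ 0) (hbH : |b| ≤ (H : ℤ)) : (b : ℂ) ∈ grid H := by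
  rw [grid, Finset.mem_image]
  refine ⟨b, ?_, rfl⟩
  rw [Finset.mem_erase, Finset.mem_Icc]
  exact ⟨hb, abs_le.mp hbH⟩

/-- the count -/
lemma count {n : ℕ} (hn : 1 ≤ n) {C q H : ℕ} {κ ε : ℝ} (hκ : 0 < κ) (hε : 0 < ε) (hH : 1 ≤ H) (E : Finset (Fin n → ℂ))
    (S : Set (Fin n → ℤ)) (hS : ∀ z ∈ S, (fun l => (z l : ℂ)) ∈ E)
    (hE : E.card * (grid H).card ≤ C * ⌊(H : ℝ) ^ κ⌋₊ ^ q * (grid H).card ^ n) :
    (S.ncard : ℝ) ≤ C * 3 ^ n * (H : ℝ) ^ ((n : ℝ) - 1 + κ * q + ε) := by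
  have hH1 : (1 : ℝ) ≤ H := by exact_mod_cast hH
  have hinj : Set.InjOn (fun (z : Fin n → ℤ) (l : Fin n) => (z l : ℂ)) S := by
    intro z _ z' _ h
    funext l
    have : (z l : ℂ) = (z' l : ℂ) := congrFun h l
    exact_mod_cast this
  have h1 : (fun (z : Fin n → ℤ) (l : Fin n) => (z l : ℂ)) '' S ⊆ (E : Set (Fin n → ℂ)) := by
    rintro _ ⟨z, hz, rfl⟩
    exact hS z hz
  have h2 := Set.ncard_le_ncard h1 (Finset.finite_toSet _)
  rw [hinj.ncard_image, Set.ncard_coe_finset] at h2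
  refine (Nat.cast_le.2 h2).trans ?_
  rw [card_grid] at hE
  obtain ⟨m, rfl⟩ : ∃ m, n = m + 1 := ⟨n - 1, by omega⟩
  have h3 : E.card * (2 * H) ≤ C * ⌊(H : ℝ) ^ κ⌋₊ ^ q * (2 * H) ^ m * (2 * H) := by
    rw [mul_assoc (C * ⌊(H : ℝ) ^ κ⌋₊ ^ q), ← pow_succ]
    exact hE
  have h4 : E.card ≤ C * ⌊(H : ℝ) ^ κ⌋₊ ^ q * (2 * H) ^ m := Nat.le_of_mul_le_mul_right h3 (by omega)
  have h5 : E.card * (2 * H + 1) ≤ C * ⌊(H : ℝ) ^ κ⌋₊ ^ q * (2 * H + 1) ^ (m + 1) := by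
    rw [pow_succ, ← mul_assoc]
    refine Nat.mul_le_mul_right _ (h4.trans (Nat.mul_le_mul_left _ (Nat.pow_le_pow_left (by omega) _)))
  have h6 := Pool.Agent.R482.ST.count_bound (κ := κ) hH (Nat.floor_le (by positivity)) hn h5
  refine h6.trans (mul_le_mul_of_nonneg_left ?_ (by positivity))
  exact Real.rpow_le_rpow_of_exponent_le hH1 (by linarith)

/-- **Theorem.** Let `V` be a subset of `(ℂ^×)^n`, `n ≥ 1`, with a prime ideal, of dimension `d`, let `κ > 0`, let `f` be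
starshaped functions on `(a₀, ∞)` of exponent of convergence at most `τ ≥ 0` and `θ < 1`. (1) There is a set `E` of Hausdorff
dimension at most `(n - 1 + κ (n² + d + 1) + τ) / (1 - θ)` such that for each `u` outside `E`, `‖u‖ > a₀`, each `c` and all but
finitely many `k`, for ALL integral vectors `z` with nonzero components near `(r / ‖u‖) u`, `r = f_k(‖u‖)` (`Near`, with
`c r ^ θ`), and all `Δ ≤ r ^ κ`: the set `U` of the points of the translate `z V` on algebraic subgroups `H` of complexity at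
most `Δ` with `d + dim H ≤ n - 1` is empty, and the intersections of `z V` with all algebraic subgroups of complexity at
most `Δ` are typical. (2) For each countable set `G` of points there is such a set `E` such that moreover for each `u`
outside `E`, each `η` of `G`, each `c` and all but finitely many `k` this is true for the cosets by `η`.
The functions `v_n x`, `v_n > 0`, are starshaped on `(0, ∞)`, of exponent `τ` if `v` has exponent of convergence at most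
`τ`; the functions `x ^ (v_n)`, `v_n ≥ 1`, are starshaped on `(1, ∞)`, of exponent `0` if the sums of `exp (-t v_n)` converge
for `t > 0`; and the iterates of a map `g` with `g(x) > x` for `x > a` and `g(x) / x` nondecreasing are starshaped on
`(a, ∞)`, of exponent `0`. -/
theorem result :
    (∀ (n : ℕ), 1 ≤ n → ∀ V : Set (Fin n → ℂ), (∀ y ∈ V, ∀ l, y l ≠ 0) → (idealOf V).IsPrime → ∀ d : ℕ, dim V = d →
      ∀ κ : ℝ, 0 < κ → ∀ (f : ℕ → ℝ → ℝ) (a₀ τ θ : ℝ), Starshaped a₀ f → 0 ≤ τ → ExpLe a₀ f τ → θ < 1 →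
      (∃ E : Set (Fin n → ℝ), dimH E ≤ ENNReal.ofReal (((n : ℝ) - 1 + κ * ((n : ℝ) ^ 2 + d + 1) + τ) / (1 - θ)) ∧
        ∀ u : Fin n → ℝ, a₀ < ‖u‖ → u ∉ E → ∀ c : ℝ, ∃ k₀ : ℕ, ∀ k : ℕ, k₀ ≤ k → ∀ z : Fin n → ℤ, (∀ l, z l ≠ 0) →
          Near (f k) (c * (f k ‖u‖) ^ θ) u z → ∀ Δ : ℕ, (Δ : ℝ) ≤ (f k ‖u‖) ^ κ →
            U Δ d (tr z V) = ∅ ∧ ∀ M : Submodule ℤ (Fin n → ℤ), Complexity Δ M → TypicalOn d (tr z V) M fun _ => 1) ∧
      ∀ G : Set (Fin n → ℂ), G.Countable → ∃ E : Set (Fin n → ℝ),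
        dimH E ≤ ENNReal.ofReal (((n : ℝ) - 1 + κ * ((n : ℝ) ^ 2 + d + 1) + τ) / (1 - θ)) ∧
        ∀ u : Fin n → ℝ, a₀ < ‖u‖ → u ∉ E → ∀ η ∈ G, ∀ c : ℝ, ∃ k₀ : ℕ, ∀ k : ℕ, k₀ ≤ k → ∀ z : Fin n → ℤ,
          (∀ l, z l ≠ 0) → Near (f k) (c * (f k ‖u‖) ^ θ) u z → ∀ Δ : ℕ, (Δ : ℝ) ≤ (f k ‖u‖) ^ κ →
            ∀ M : Submodule ℤ (Fin n → ℤ), Complexity Δ M → TypicalOn d (tr z V) M η) ∧
    (∀ (v : ℕ → ℝ) (τ : ℝ), (∀ n, 0 < v n) → (∀ t : ℝ, τ < t → Summable (fun n : ℕ => (v n) ^ (-t))) →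
      Starshaped 0 (fun n x => v n * x) ∧ ExpLe 0 (fun n x => v n * x) τ) ∧
    (∀ v : ℕ → ℝ, (∀ n, 1 ≤ v n) → (∀ t : ℝ, 0 < t → Summable fun n : ℕ => Real.exp (-(t * v n))) →
      Starshaped 1 (fun n x => x ^ (v n)) ∧ ExpLe 1 (fun n x => x ^ (v n)) 0) ∧
    (∀ (a : ℝ) (g : ℝ → ℝ), 0 ≤ a → (∀ x y : ℝ, a < x → x ≤ y → g x / x ≤ g y / y) → (∀ x : ℝ, a < x → x < g x) →
      Starshaped a (fun n x => g^[n] x) ∧ ExpLe a (fun n x => g^[n] x) 0) := by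
  refine ⟨fun n hn V hV0 hVp d hd κ hκ f a₀ τ θ hf hτ hv hθ => ?_, Pool.Agent.R482.ST.ex_mul, Pool.Agent.R482.ST.ex_pow, Pool.Agent.R482.ST.ex_orbit⟩
  classical
  obtain ⟨C, hC⟩ := GridTranslates.result V hV0 hVp d hd
  have hn' : (0 : ℝ) ≤ (n : ℝ) - 1 := by
    have : (1 : ℝ) ≤ (n : ℝ) := by exact_mod_cast hn
    linarith
  refine ⟨?_, fun G hG => ?_⟩
  · obtain ⟨E, hE, h⟩ := Pool.Agent.R482.ST.vec_prop (ι := Fin n)
      (fun z X => (∀ l, z l ≠ 0) ∧ ∃ Δ : ℕ, (Δ : ℝ) ≤ (max X 0) ^ κ ∧ ¬ (U Δ d (tr z V) = ∅ ∧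
        ∀ M : Submodule ℤ (Fin n → ℤ), Complexity Δ M → TypicalOn d (tr z V) M fun _ => 1))
      (fun z X Y hXY ⟨h0, Δ, h1, h2⟩ => ⟨h0, Δ, h1.trans (Real.rpow_le_rpow (le_max_right _ _)
        (max_le_max hXY le_rfl) hκ.le), h2⟩)
      (s := (n : ℝ) - 1 + κ * ((n : ℝ) ^ 2 + d + 1)) (by positivity) (fun ε hε => by
        refine ⟨(C : ℝ) * 3 ^ n, fun H hH => ?_⟩
        have hH1 : (1 : ℝ) ≤ H := by exact_mod_cast hH
        have hHκ : (1 : ℝ) ≤ (H : ℝ) ^ κ := Real.one_le_rpow hH1 hκ.le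
        have hΔ1 : 1 ≤ ⌊(H : ℝ) ^ κ⌋₊ := Nat.le_floor (by exact_mod_cast hHκ)
        obtain ⟨⟨E, hE1, hE2⟩, -⟩ := hC ⌊(H : ℝ) ^ κ⌋₊ hΔ1 (grid H) (by rw [card_grid]; omega) (zero_grid H)
        have h1 := count hn hκ hε hH E {z : Fin n → ℤ | (∀ i, |z i| ≤ (H : ℤ)) ∧ (∀ l, z l ≠ 0) ∧
            ∃ Δ : ℕ, (Δ : ℝ) ≤ (max (H : ℝ) 0) ^ κ ∧ ¬ (U Δ d (tr z V) = ∅ ∧
              ∀ M : Submodule ℤ (Fin n → ℤ), Complexity Δ M → TypicalOn d (tr z V) M fun _ => 1)} (by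
          rintro z ⟨h1, h0, Δ, h2, h3⟩
          rw [max_eq_left (by linarith)] at h2
          have h8 : Δ ≤ ⌊(H : ℝ) ^ κ⌋₊ := Nat.le_floor h2
          by_contra hcon
          obtain ⟨g1, g2⟩ := hE2 (fun l => (z l : ℂ)) (fun l => mem_grid (h0 l) (h1 l)) hcon
          refine h3 ⟨?_, fun M hM => g2 M (compl_mono h8 hM)⟩
          exact Set.subset_eq_empty (U_mono h8 d _) g1) hE1
        refine h1.trans (le_of_eq ?_)
        congr 2
        push_cast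
        ring) f a₀ τ θ hf hτ hv hθ
    refine ⟨E, hE, fun u hu huE c => ?_⟩
    obtain ⟨k₀, hk⟩ := h u hu huE c
    refine ⟨k₀, fun k hk1 z hz0 hz Δ hΔ => ?_⟩
    by_contra hcon
    have hpos : 0 < f k ‖u‖ := (hf.2 k _ _ hu le_rfl).1
    refine hk k hk1 z hz ⟨hz0, Δ, ?_, hcon⟩
    rw [max_eq_left hpos.le]
    exact hΔ
  · have hone : ∀ η : Fin n → ℂ, ∃ E : Set (Fin n → ℝ),
        dimH E ≤ ENNReal.ofReal (((n : ℝ) - 1 + κ * ((n : ℝ) ^ 2 + d + 1) + τ) / (1 - θ)) ∧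
        ∀ u : Fin n → ℝ, a₀ < ‖u‖ → u ∉ E → ∀ c : ℝ, ∃ k₀ : ℕ, ∀ k : ℕ, k₀ ≤ k → ∀ z : Fin n → ℤ,
          (∀ l, z l ≠ 0) → Near (f k) (c * (f k ‖u‖) ^ θ) u z → ∀ Δ : ℕ, (Δ : ℝ) ≤ (f k ‖u‖) ^ κ →
            ∀ M : Submodule ℤ (Fin n → ℤ), Complexity Δ M → TypicalOn d (tr z V) M η := by
      intro η
      obtain ⟨E, hE, h⟩ := Pool.Agent.R482.ST.vec_prop (ι := Fin n)
        (fun z X => (∀ l, z l ≠ 0) ∧ ∃ Δ : ℕ, (Δ : ℝ) ≤ (max X 0) ^ κ ∧
          ∃ M : Submodule ℤ (Fin n → ℤ), Complexity Δ M ∧ ¬ TypicalOn d (tr z V) M η)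
        (fun z X Y hXY ⟨h0, Δ, h1, h2⟩ => ⟨h0, Δ, h1.trans (Real.rpow_le_rpow (le_max_right _ _)
          (max_le_max hXY le_rfl) hκ.le), h2⟩)
        (s := (n : ℝ) - 1 + κ * ((n : ℝ) ^ 2 + d + 1)) (by positivity) (fun ε hε => by
          refine ⟨((C * ({η} : Finset (Fin n → ℂ)).card : ℕ) : ℝ) * 3 ^ n, fun H hH => ?_⟩
          have hH1 : (1 : ℝ) ≤ H := by exact_mod_cast hH
          have hHκ : (1 : ℝ) ≤ (H : ℝ) ^ κ := Real.one_le_rpow hH1 hκ.le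
          have hΔ1 : 1 ≤ ⌊(H : ℝ) ^ κ⌋₊ := Nat.le_floor (by exact_mod_cast hHκ)
          obtain ⟨-, hG2⟩ := hC ⌊(H : ℝ) ^ κ⌋₊ hΔ1 (grid H) (by rw [card_grid]; omega) (zero_grid H)
          obtain ⟨E, hE1, hE2⟩ := hG2 {η}
          have h1 := count hn hκ hε hH E {z : Fin n → ℤ | (∀ i, |z i| ≤ (H : ℤ)) ∧ (∀ l, z l ≠ 0) ∧
              ∃ Δ : ℕ, (Δ : ℝ) ≤ (max (H : ℝ) 0) ^ κ ∧
                ∃ M : Submodule ℤ (Fin n → ℤ), Complexity Δ M ∧ ¬ TypicalOn d (tr z V) M η} (by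
            rintro z ⟨h1, h0, Δ, h2, M, h3, h4⟩
            rw [max_eq_left (by linarith)] at h2
            have h8 : Δ ≤ ⌊(H : ℝ) ^ κ⌋₊ := Nat.le_floor h2
            by_contra hcon
            exact h4 (hE2 (fun l => (z l : ℂ)) (fun l => mem_grid (h0 l) (h1 l)) hcon M (compl_mono h8 h3) η
              (Finset.mem_singleton_self η))) hE1
          refine h1.trans (le_of_eq ?_)
          congr 2
          push_cast
          ring) f a₀ τ θ hf hτ hv hθ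
      refine ⟨E, hE, fun u hu huE c => ?_⟩
      obtain ⟨k₀, hk⟩ := h u hu huE c
      refine ⟨k₀, fun k hk1 z hz0 hz Δ hΔ M hM => ?_⟩
      by_contra hcon
      have hpos : 0 < f k ‖u‖ := (hf.2 k _ _ hu le_rfl).1
      refine hk k hk1 z hz ⟨hz0, Δ, ?_, M, hM, hcon⟩
      rw [max_eq_left hpos.le]
      exact hΔ
    choose F hF1 hF2 using hone
    refine ⟨⋃ η ∈ G, F η, ?_, fun u hu huE η hη => hF2 η u hu fun h => huE (Set.mem_biUnion hη h)⟩
    rw [dimH_bUnion hG]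
    exact iSup₂_le fun η _ => hF1 η

end Pool.Agent.Results.MP_c95b3b_ag.StarshapedTranslates
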